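import Pool.Agent.K1H53.BI.Plan3
import Pool.Agent.K1H74.BI.Inv

set_option autoImplicit false

namespace Pool.Agent.K1H58.BI

open Finset Pool.Agent.K1H53.BI
open scoped ENNReal

theorem t_SBU : S_SBU := by
  intro h ν σ2 M hoff
  obtain ⟨C, hC, hw⟩ := h ν σ2 M hoff
  refine ⟨3 * C, by positivity, ?_⟩
  intro T a n y hn ha
  classical
  set c : ℝ := T + n - y with hc
  set F : Finset ℕ := Finset.Icc ⌈c - a⌉₊ ⌊c + a⌋₊ with hF
  have hmem : ∀ S : ℕ, |((y : ℝ) + S - n) - T| ≤ a → S ∈ F := by
    intro S hS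
    rw [abs_le] at hS
    rw [hF, Finset.mem_Icc]
    refine ⟨Nat.ceil_le.2 (by rw [hc]; linarith [hS.1]), Nat.le_floor (by rw [hc]; linarith [hS.2])⟩
  have hcard : (F.card : ℝ) ≤ 3 * a := by
    rw [hF, Nat.card_Icc]
    by_cases h1 : 0 ≤ c + a
    · have h2 := Nat.floor_le h1
      have h3 := Nat.le_ceil (c - a)
      by_cases h4 : ⌈c - a⌉₊ ≤ ⌊c + a⌋₊ + 1
      · rw [Nat.cast_sub h4]
        push_cast
        linarith
      · rw [Nat.sub_eq_zero_of_le (by omega)]
        push_cast
        linarith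
    · have h2 : ⌊c + a⌋₊ = 0 := Nat.floor_of_nonpos (by linarith)
      rw [h2]
      have h3 : (0 + 1 - ⌈c - a⌉₊ : ℕ) ≤ 1 := by omega
      have h4 : ((0 + 1 - ⌈c - a⌉₊ : ℕ) : ℝ) ≤ 1 := by exact_mod_cast h3
      linarith
  unfold uu Ex
  rw [tsum_eq_sum (s := F)]
  · calc ∑ S ∈ F, walk ν n S * ind (fun S : ℕ => |((y : ℝ) + S - n) - T| ≤ a) S
        ≤ ∑ S ∈ F, ENNReal.ofReal (C / Real.sqrt n) := by
          refine Finset.sum_le_sum fun S _ => ?_
          calc walk ν n S * ind (fun S : ℕ => |((y : ℝ) + S - n) - T| ≤ a) S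
              ≤ walk ν n S * 1 := by
                refine mul_le_mul_right ?_ _
                unfold ind
                split_ifs <;> simp
            _ = walk ν n S := mul_one _
            _ ≤ _ := hw n S hn
      _ = (F.card : ℝ≥0∞) * ENNReal.ofReal (C / Real.sqrt n) := by
          rw [Finset.sum_const, nsmul_eq_mul]
      _ ≤ ENNReal.ofReal (3 * a) * ENNReal.ofReal (C / Real.sqrt n) := by
          refine mul_le_mul_left ?_ _
          rw [← ENNReal.ofReal_natCast]
          exact ENNReal.ofReal_le_ofReal hcard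
      _ = ENNReal.ofReal (3 * C * a / Real.sqrt n) := by
          rw [← ENNReal.ofReal_mul (by positivity)]
          congr 1
          ring
  · intro S hS
    have h1 : ¬ |((y : ℝ) + S - n) - T| ≤ a := fun h1 => hS (hmem S h1)
    unfold ind
    rw [if_neg h1, mul_zero]

theorem Ex_stepN (ν : PMF ℕ) (R : ℕ) (p : St × ℕ) (F : St × ℕ → ℝ≥0∞) :
    Ex (stepN ν R p) F = Ex (stepD ν R p.1) (fun s' => F (s', p.2 + cnt R p.1)) := by
  unfold stepN
  rw [Ex_bind]
  simp only [Ex_pure]

theorem aug_a (ν : PMF ℕ) (R T n : ℕ) : ∀ g : St → ℝ≥0∞,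
    Ex (lawN ν R T n) (fun p => g p.1) = Ex (law (stepD ν R) T n) g := by
  induction n with
  | zero =>
    intro g
    rw [lawN, law, Ex_pure, Ex_pure]
  | succ n ih =>
    intro g
    rw [lawN, law, Ex_bind, Ex_bind]
    simp only [Ex_stepN]
    exact ih fun s => Ex (stepD ν R s) g

theorem lawN_good (ν : PMF ℕ) (R T n : ℕ) (p : St × ℕ) (hp : lawN ν R T n p ≠ 0) : Good p.1 := by
  classical
  by_contra hg
  have h1 : Ex (law (stepD ν R) T n) (ind fun s => ¬ Good s) = 0 := by
    unfold Ex
    rw [ENNReal.tsum_eq_zero]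
    intro s
    by_cases h2 : Good s
    · unfold ind
      rw [if_neg (not_not.2 h2), mul_zero]
    · have h3 : law (stepD ν R) T n s = 0 := by
        by_contra h3
        exact h2 ((Pool.Agent.K1H74.BI.t_INV ν R T n s).2 h3)
      rw [h3, zero_mul]
  rw [← aug_a] at h1
  unfold Ex at h1
  rw [ENNReal.tsum_eq_zero] at h1
  have h2 : lawN ν R T n p * ind (fun s => ¬ Good s) p.1 = 0 := h1 p
  have h3 : ind (fun s => ¬ Good s) p.1 = 1 := by
    unfold ind
    exact if_pos hg
  rw [h3, mul_one] at h2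
  exact hp h2

theorem t_AUG : S_AUG := by
  intro ν R T n
  refine ⟨aug_a ν R T n, ?_⟩
  intro F b hF
  induction n with
  | zero =>
    rw [lawN, Ex_pure]
    exact le_self_add
  | succ n ih =>
    rw [lawN, Ex_bind]
    simp only [Ex_stepN]
    calc Ex (lawN ν R T n) (fun p => Ex (stepD ν R p.1) (fun s' => F (s', p.2 + cnt R p.1)))
        ≤ Ex (lawN ν R T n) (fun p => F p + b * ind (Proc R) p.1) :=
          Ex_mono _ fun p hp => hF p.1 p.2 (lawN_good ν R T n p hp)
      _ = Ex (lawN ν R T n) F + b * Ex (law (stepD ν R) T n) (ind (Proc R)) := by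
          rw [Ex_add, Ex_const_mul, ← aug_a]
      _ ≤ (F (⟨{0}, [], T - 1⟩, 0) + b * EN ν R T n) +
          b * Ex (law (stepD ν R) T n) (ind (Proc R)) := by gcongr
      _ = F (⟨{0}, [], T - 1⟩, 0) + b * EN ν R T (n + 1) := by
          unfold EN
          rw [Finset.sum_range_succ, mul_add, add_assoc]

theorem t_UST : S_UST := by
  intro hinv hgen huu haug ν σ2 M R T n np a hoff hT
  classical
  have h1 := (haug ν R T n).2 (UF ν T a np) 0 ?_
  · rw [zero_mul, add_zero] at h1
    refine h1.trans (le_of_eq ?_)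
    unfold UF
    rw [if_pos (Nat.zero_le _)]
    have h2 : yy (⟨{0}, [], T - 1⟩ : St) = T := by
      unfold yy
      simp
      omega
    rw [h2, Nat.sub_zero]
  · intro s N hs
    rw [zero_mul, add_zero]
    obtain ⟨hg1, hg2⟩ := hgen ν R s hs
    by_cases hP : Proc R s
    · have hcnt : cnt R s = 1 := by
        unfold cnt
        rw [if_pos hP]
      rw [hcnt]
      by_cases hN : N + 1 ≤ np
      · have h2 : (fun s' => UF ν T a np (s', N + 1)) =
            fun s' => uu ν T a (np - (N + 1)) (yy s') := by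
          funext s'
          unfold UF
          rw [if_pos hN]
        rw [h2, (hg2 hP).1 (uu ν T a (np - (N + 1)))]
        have hy : 1 ≤ yy s := by
          unfold yy
          have : 0 < s.A.card := Finset.card_pos.2 ⟨0, hs.zero_mem⟩
          omega
        rw [← (huu ν σ2 M hoff).1 T a (np - (N + 1)) (yy s) hy]
        unfold UF
        rw [if_pos (by omega : N ≤ np)]
        have h3 : np - (N + 1) + 1 = np - N := by omega
        rw [h3]
      · have h2 : (fun s' => UF ν T a np (s', N + 1)) = fun _ => 0 := by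
          funext s'
          unfold UF
          rw [if_neg hN]
        rw [h2, Ex_const]
        exact zero_le
    · obtain ⟨s', h2, h3, -, -⟩ := hg1 hP
      have hcnt : cnt R s = 0 := by
        unfold cnt
        rw [if_neg hP]
      rw [hcnt, h2, Ex_pure]
      unfold UF
      simp only [add_zero, h3]
      exact le_refl _

end Pool.Agent.K1H58.BI
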